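import Pool.Agent.Helper20.WE.Fdc
import Pool.Agent.Helper20.FQ.Tow
import Pool.Agent.Helper20.FQ.Hig
import Pool.Agent.Helper20.FQ.Mac
import Pool.Agent.Helper20.FQ.Rec
import Pool.Agent.Helper20.FQ.Bas
import Pool.Agent.Helper20.FQ.Ama
import Pool.Agent.Helper20.FQ.Cnj
import Pool.Agent.Helper20.FQ.Drv

/-!
# The assertion is equivalent to its decidability

Theorem.  Suppose that the assertion of Q1 is false.  Then for every recursively enumerable set `S` of natural numbers
there is a computable sequence `f 0, f 1, ...` of finite presentations, with a fixed number of generators, of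
TORSION-FREE groups `X_n` such that `Wh(X_n) = 0` if and only if `n ∈ S`.

In particular: if the vanishing of `Wh(X)` is decidable for finitely presented torsion-free groups `X` (i.e. the set of
the `n` with `Wh(X_n) = 0` is computable for each computable sequence of finite presentations of torsion-free groups) then
it holds always, and the assertion of Q1 is true.

The same holds with the reduced `K_0` in place of `Wh`, for the assertions on the reduced `K_0` and on the negative
`K`-groups.

The theorem of Adian and Rabin does not apply, it produces groups with torsion or, if one knows which groups arise, gives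
no information in the class of torsion-free groups: a trivial word has to produce a group with `Wh = 0`, and a nontrivial
word a torsion-free group whose Whitehead group contains a given one.

Proof.

1. If the assertion is false then there is a FINITELY PRESENTED torsion-free group `K` with `Wh(K) ≠ 0` (our theorem
`UniversalWhitehead`).

2. (Words.) There are a finitely presented torsion-free group `H` and a computable sequence `w_0, w_1, ...` of words in
the generators such that `w_n = 1` in `H` if and only if `n ∈ S`.  For this take a group with two generators `a, b` and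
with the relators `a b^(n+1) a b^-(n+1) a⁻¹ b^(n+1) a⁻¹ b^-(n+1)`, `n ∈ S`, which are independent.  By Higman's embedding
theorem it is a subgroup of a finitely presented group `Q = F / R`, `F` free.  Let `H` be the HNN extension of `F × F`
along the fibre product of `F × F` over `Q`, with the identity, and with the stable letter `t`.  It is finitely
presented and torsion-free, and `w_n` is the commutator of `t` and a lift of the relator.

3. (The Rabin type construction.)  Let `K'` be the free product of `K`, `H` and a further infinite cyclic group, and let
`y_1, ..., y_l` be generators of `K'`, all of them `≠ 1`.  Let `X_n` be the group with the generators of `K'` and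
`t_1, ..., t_l` and with the relators of `K'` and `t_i w_n t_i⁻¹ = y_i`.  If `w_n = 1` then `X_n` is the free group with
the basis `t_1, ..., t_l`.  If `w_n ≠ 1` then `X_n` is a multiple HNN extension of `K'` along infinite cyclic groups, and
torsion-free.  Then `Wh(K')` is a subgroup of `Wh(X_n)` (if `Wh(X_n) = 0` then `Wh(K') = 0`, by part 1 of
`UniversalWhitehead` and `Wh(ℤ) = 0`), and `Wh(K)` is a direct summand of `Wh(K')`.  So `Wh(X_n) ≠ 0`.

4. (`Wh` of free groups.)  It remains to prove that `Wh(F) = 0` for the free groups `F` of finite rank, and the same for
the reduced `K_0`.  The library has this for infinite cyclic groups only.  It is proved here in full, as a special case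
of: if `Wh(B) = 0`, the reduced `K_0` of `ℤA` is `0` and the kernels of matrices over `ℤA` are stably free then
`Wh(G) = 0` for the HNN extensions `G` of `B` with the associated subgroup `A` (part of Waldhausen's theorem; matrices
over `ℤG` are linearized, decomposed along the Bass-Serre tree and reduced to nilpotent matrices).  For the reduced `K_0`
a finitely generated submodule of a free module over `ℤF` is resolved with the Cayley tree of `F`.

Steps 2, 3 and 4 are joint work with the helpers 5, 10, 14, 18, 21, 55, 80 and 90.
-/

namespace Pool.Agent.Results.MP_16fe43_al.DecidableVanishing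

open Group
open Pool.Agent.E8helper16.UK (TF WhZero KZero KNeg ZG)
open Pool.Agent.Helper20.WE (PG)

universe u

/-- Higman's embedding theorem -/
theorem higman : Pool.Agent.Helper20.FQ.Higman := by
  open Pool.Agent.Helper20.FQ in
  exact Hig.hig Mac.mach Rec.s_RE deriv Bas.base (tower am conj)

/-- **The assertion of Q1 is equivalent to its decidability.** -/
theorem result :
    ((∃ (G : Type u) (_ : Group G), TF G ∧
        ¬ (WhZero G ∧ KZero G ∧ ∀ n : ℕ, 1 ≤ n → Subsingleton ((KNeg.{u} n).obj (ZG G)))) →
      ∀ S : ℕ → Prop, REPred S → ∃ (k : ℕ) (f : ℕ → List (List (Fin k × Bool))), Computable f ∧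
        (∀ n, TF (PG (f n))) ∧ ∀ n, WhZero (PG (f n)) ↔ S n) ∧
    ((∃ (G : Type u) (_ : Group G), TF G ∧
        ¬ (KZero G ∧ ∀ n : ℕ, 1 ≤ n → Subsingleton ((KNeg.{u} n).obj (ZG G)))) →
      ∀ S : ℕ → Prop, REPred S → ∃ (k : ℕ) (f : ℕ → List (List (Fin k × Bool))), Computable f ∧
        (∀ n, TF (PG (f n))) ∧ ∀ n, KZero (PG (f n)) ↔ S n) ∧
    ((∀ (k : ℕ) (f : ℕ → List (List (Fin k × Bool))), Computable f → (∀ n, TF (PG (f n))) →
        ComputablePred fun n => WhZero (PG (f n))) →
      ∀ (G : Type u) [Group G], TF G →
        WhZero G ∧ KZero G ∧ ∀ n : ℕ, 1 ≤ n → Subsingleton ((KNeg.{u} n).obj (ZG G))) ∧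
    ((∀ (k : ℕ) (f : ℕ → List (List (Fin k × Bool))), Computable f → (∀ n, TF (PG (f n))) →
        ComputablePred fun n => KZero (PG (f n))) →
      ∀ (G : Type u) [Group G], TF G →
        KZero G ∧ ∀ n : ℕ, 1 ≤ n → Subsingleton ((KNeg.{u} n).obj (ZG G))) :=
  have h1 := Pool.Agent.Helper20.WE.Fdc.dec_wh.{u} higman
  have h2 := Pool.Agent.Helper20.WE.Fdc.dec_k.{u} higman
  ⟨h1.1, h2.1, h1.2, h2.2⟩

end Pool.Agent.Results.MP_16fe43_al.DecidableVanishing
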