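import Pool.Agent.Helper20.TG.One

/-!
# Two generators suffice

A class `C` of torsion-free groups is *good* if it is closed under isomorphisms, subgroups, direct products of two groups,
extensions with quotient `ℤ`, and if it contains every group all of whose finitely generated subgroups are in `C`.
Examples: all torsion-free groups, the torsion-free amenable groups, the locally indicable groups, the left-orderable
groups, and the intersections of such classes.

Theorem.  For every good class `C` (not empty) there is ONE group `W` in `C` with two generators such that

* `Wh(W) = 0` if and only if `Wh(G) = 0`, the reduced `K_0(ℤG)` is `0` and `K_n(ℤG) = 0` for all `n ≤ -1`, for all `G`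
  in `C`;
* the reduced `K_0(ℤW)` is `0` if and only if the reduced `K_0(ℤG)` is `0` and `K_n(ℤG) = 0` for all `n ≤ -1`, for all
  `G` in `C`.

So Q1 for all torsion-free groups, for all torsion-free amenable groups, for all locally indicable groups, ... is in each
case the vanishing of the Whitehead group of one group of this kind with two generators.

The proof has two steps.  First, a pattern is a matrix over the integral group ring of the free group of countable rank.
There are only countably many patterns.  For each pattern which gives an invertible matrix with nontrivial class in
`Wh(G)`, or an idempotent matrix which is not stably free, for some `G` in `C`, choose one countable such `G`.  The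
restricted direct product of these groups is a countable group in `C` which decides for the class.  Second, every
countable torsion-free group `G` embeds in a group `W` with two generators which is contained in every good class that
contains `G`, such that `Wh(G) → Wh(W)` and the homomorphism of the reduced groups `K_0(ℤG) → K_0(ℤW)` are injective.

Construction.  Let `g_0, g_1, ...` be all elements of `G`.  Let `V` be the restricted wreath product of `G` and `ℤ`, and
let `U` be the subgroup of the unrestricted wreath product of `V` and `ℤ` which is generated by the shift, by the
generator of `ℤ` in `V` placed at `0`, and by the functions `y_m : ℤ → V`, where `y_m(0)` is `g_m` at the place `0`,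
`y_m(n)` is `g_m` at the place `m` for `n > 0`, and `y_m(n) = 1` for `n < 0`.  Every element of `G` (at the place `0` of
`0`) is a commutator in `U`.  Let `W` be generated by the shift and by the function with the value `u_i` at `4 ^ i` in the
unrestricted wreath product of `U` and `ℤ`, where `u_0, u_1, ...` are all elements of `U`, each infinitely often.  This is
a version of the embeddings of P. Hall and of B. H. and H. Neumann, arranged so that only extensions with quotient `ℤ`,
directed unions and subgroups of finite powers of the previous group occur.

Proof of the injectivity.  Let the matrix `A` over `ℤG` become a product of elementary matrices and of trivial units over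
the group ring of one of the groups `X = V, U, W` of functions on `ℤ`, with values in the previous group `Y`.  The
finitely many elements of `X` which occur are truncated: the functions are restricted to a finite window, and the shift
becomes a cyclic permutation of the window, so that the product of the truncated matrices differs from the image of `A`
only by matrices over the group ring of `Y` which sit at the ends of the window.  Windows can be chosen such that the
values of the functions at the ends are `1` (for `V` and `W`) or lie in the subgroup of `V` which is generated by the
`g_m` at the places `m` (for `U`).  The coordinates of this subgroup are cyclic, and `Wh` and the reduced `K_0` of an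
infinite cyclic group vanish (Bass, Heller and Swan), so that the errors disappear.  The truncated elementary matrices
are matrices over the group ring of `Y`, and the Whitehead lemma gives that the class of `A` is trivial in `Wh(Y)`.  The
same truncation works for idempotent matrices.
-/

namespace Pool.Agent.Results.MP_16fe43_al.TwoGenerators

open Pool.Agent.E8helper16.UK Pool.Agent.Helper20.TG

universe u

/-- **Two generators suffice.**
(1) Every countable torsion-free group embeds in a group with two generators which is in every good class that contains
the given group, such that the homomorphisms of the Whitehead groups and of the reduced groups `K_0` are injective.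
(2) In every good class there is one group `W` with two generators which decides: `Wh(W) = 0` if and only if `Wh(G) = 0`,
the reduced `K_0(ℤG)` is `0` and `K_n(ℤG) = 0` for all `n ≤ -1` and all `G` in `C`, and the same for the reduced `K_0`
in place of `Wh`; the conclusions then hold for all groups in all universes whose finitely generated subgroups are
isomorphic to groups in the class.
(3) The torsion-free groups, the torsion-free amenable groups, the locally indicable groups and the left-orderable groups
are good classes, and intersections of good classes are good. -/
theorem result :
    (∀ (G : Type) [Group G] [Countable G], TF G →
      ∃ (W : Type) (_ : Group W) (φ : G →* W), Function.Injective φ ∧ TwoGen W ∧ WhInj φ ∧ KInj φ ∧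
        ∀ C : (G : Type) → [Group G] → Prop, GoodClass C → C G → C W) ∧
    (∀ C : (G : Type) → [Group G] → Prop, GoodClass C → (∃ (A : Type) (_ : Group A), C A) →
      ∃ (W : Type) (_ : Group W), TwoGen W ∧ C W ∧
        (WhZero W ↔ ∀ (G : Type) [Group G], C G →
          WhZero G ∧ KZero G ∧ ∀ n : ℕ, 1 ≤ n → Subsingleton ((KNeg.{0} n).obj (ZG G))) ∧
        (KZero W ↔ ∀ (G : Type) [Group G], C G →
          KZero G ∧ ∀ n : ℕ, 1 ≤ n → Subsingleton ((KNeg.{0} n).obj (ZG G))) ∧
        (WhZero W → ∀ (G : Type u) [Group G], LocC C G →
          WhZero G ∧ KZero G ∧ ∀ n : ℕ, 1 ≤ n → Subsingleton ((KNeg.{u} n).obj (ZG G))) ∧
        (KZero W → ∀ (G : Type u) [Group G], LocC C G →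
          KZero G ∧ ∀ n : ℕ, 1 ≤ n → Subsingleton ((KNeg.{u} n).obj (ZG G)))) ∧
    GoodClass (fun (G : Type) [Group G] => TF G) ∧
    GoodClass (fun (G : Type) [Group G] => TF G ∧ Amen G) ∧
    GoodClass (fun (G : Type) [Group G] => LI G) ∧
    GoodClass (fun (G : Type) [Group G] => LO G) ∧
    (∀ C D : (G : Type) → [Group G] → Prop, GoodClass C → GoodClass D →
      GoodClass (fun (G : Type) [Group G] => C G ∧ D G)) ∧
    (∀ (G : Type u) [Group G], TF G → LocC (fun (G : Type) [Group G] => TF G) G) := by
  refine ⟨fun G _ _ hG => embed G hG, fun C hC hne => one_two_iff hC hne, good_TF, good_amen, good_LI, good_LO,
    fun C D hC hD => good_and hC hD, fun G _ hG => LocC_TF hG⟩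

end Pool.Agent.Results.MP_16fe43_al.TwoGenerators
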