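import Pool.Agent.Helper20.WE.Fk
import Pool.Agent.Helper20.FQ.HigT

/-!
# One finitely presented group for the reduced projective class groups

Theorem.  There is a finitely presented torsion-free group `P` with two generators such that

* each finitely presented torsion-free group `X` is a subgroup of `P` such that the homomorphism from the reduced
  `K_0(ℤX)` to the reduced `K_0(ℤP)` is injective;
* the reduced `K_0(ℤP)` is `0` if and only if the reduced `K_0(ℤG)` is `0` and `K_n(ℤG) = 0`, `n ≤ -1`, for ALL
  torsion-free groups `G` (that is the assertion of Q1 without `Wh(G)`).

So the part of Q1 on the projective class groups and on the negative `K`-groups is equivalent to the assertion that the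
finitely generated projective modules over the group ring of ONE finitely presented group are stably free.

A torsion-free group need not be the limit of a directed system of finitely presented torsion-free groups (a finitely
presented group which maps to it may have torsion), so it is not even clear that finitely presented torsion-free groups
suffice.

The proof has five parts.

1. (Exactness.)  Let `H` be an HNN extension of `B` with the associated subgroup `A` such that the reduced `K_0(ℤA)` is
`0`.  Then the reduced `K_0(ℤB)` injects in the reduced `K_0(ℤH)`: an isomorphism over `ℤH` is truncated with respect to
a half of the Bass-Serre tree, and the errors are projective modules over `ℤA`.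

2. (Vanishing.)  Let `H` be an HNN extension of `B` with the associated subgroup `A`, and suppose that kernels of matrices
over `ℤB` and over `ℤA` are stably free.  Then the finitely generated projective modules `M` over `ℤH` are stably free.
For this let `M` be a direct summand of `(ℤH)^n`, and let `M_Y` be the set of the elements of `M` with supports in the
window `Y`, a union of finitely many cosets of `B` which corresponds to a finite subtree of the Bass-Serre tree.  It is
the kernel of a matrix over `ℤB`.  For a large window the sequence
`0 → ℤH ⊗_A M_(Y ∩ tY) → ℤH ⊗_B M_Y → M → 0` is exact; an element of the kernel is a chain on the edges of the tree, and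
its values are sums over half-trees of elements of `M`.
Kernels of matrices over the group rings of free groups of finite rank are stably free (the same with the Cayley tree).
So the reduced `K_0` vanishes for free groups `F`, for `HNN(F; L, L, id)` and by part 1 for `F *_L F`, `L` a finitely
generated subgroup of `F`; with direct limits for all `L`.

3. (Higman's embedding theorem), by modular machines.

4. (The universal group.)  The free product of the largest torsion-free quotients of all finitely presented groups embeds
in a group `V` with two generators, recursively presented and torsion-free.  By part 3 and the rope trick it embeds in a
finitely presented torsion-free group; the associated subgroups of the HNN extensions are free groups and a double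
`F *_N F` of a free group (`N` is the kernel of `F → V`, it is not finitely generated).  By parts 1 and 2 all these
embeddings are injective on the reduced `K_0`.

5. (Continuity.)  A projective module over `ℤG`, `G` torsion-free, comes from the largest torsion-free quotient of a
finitely presented group; `K_n`, `n ≤ -1`, is reduced to `K_0` with `G × ℤ`.

The parts 2, 3 and 4 are joint work with the helpers 5, 14, 18, 21, 55, 66 and 80.
-/

namespace Pool.Agent.Results.MP_16fe43_al.UniversalProjective

open Group
open Pool.Agent.E8helper16.UK (TF KZero KNeg ZG)
open Pool.Agent.Helper20.TG (TwoGen KInj)

universe u

/-- **One finitely presented torsion-free group decides for the reduced projective class groups.** -/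
theorem result :
    ∃ (P : Type) (_ : Group P), IsFinitelyPresented P ∧ TwoGen P ∧ TF P ∧
      (∀ (X : Type) [Group X], IsFinitelyPresented X → TF X →
        ∃ f : X →* P, Function.Injective f ∧ KInj f) ∧
      (KZero P ↔ ∀ (G : Type) [Group G], TF G →
        KZero G ∧ ∀ n : ℕ, 1 ≤ n → Subsingleton ((KNeg.{0} n).obj (ZG G))) ∧
      (KZero P → ∀ (G : Type u) [Group G], TF G →
        KZero G ∧ ∀ n : ℕ, 1 ≤ n → Subsingleton ((KNeg.{u} n).obj (ZG G))) :=
  Pool.Agent.Helper20.WE.Fk.main_k Pool.Agent.Helper20.FQ.higman_embedding

end Pool.Agent.Results.MP_16fe43_al.UniversalProjective
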