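import Pool.Agent.Helper20.WE.Fk
import Pool.Agent.Helper20.WE.Grp
import Pool.Agent.Helper20.FQ.HigT

/-!
# The universal finitely presented group for the Whitehead groups

Theorem.  There is a finitely presented torsion-free group `P` with two generators such that

* each finitely presented torsion-free group `X` is a subgroup of `P` such that `Wh(X) → Wh(P)` is injective;
* for ALL torsion-free groups `G`, all `n` and all finitely generated subgroups `A` of `Wh_n(G)` the direct sum of
  infinitely many copies of `A` is (isomorphic to) a subgroup of `Wh_n(P)`; here `Wh_n(G)` is the image of `GL_n(ℤG)` in
  `Wh(G)`, so that `Wh(G)` is the union of `Wh_1(G) ⊆ Wh_2(G) ⊆ ...`;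
* each `Wh_n(P)` is trivial or not finitely generated;
* `Wh(P) = 0` if and only if `Wh(G)`, the reduced `K_0(ℤG)` and `K_n(ℤG)`, `n ≤ -1`, vanish for ALL torsion-free groups
  `G`, that is, the assertion of Q1.

So Q1 is equivalent to the assertion that each invertible matrix over the group ring of ONE finitely presented group is
stably a product of elementary matrices and trivial units, and if Q1 is false (for `Wh`) then there are a finitely
presented torsion-free group `P` and an `n` such that the image of `GL_n(ℤP)` in `Wh(P)` is not finitely generated and
contains all the finitely generated groups which arise as subgroups of Whitehead groups `Wh_n(G)` of torsion-free groups.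

A torsion-free group need not be the limit of a directed system of finitely presented torsion-free groups (a finitely
presented group which maps to it may have torsion), so it is not even clear that finitely presented torsion-free groups
suffice.

The proof has six parts.

1. (Exactness.)  Let `H` be an HNN extension of `B` with the associated subgroup `A` such that `Wh(A) = 0`.  Then
`Wh(B) → Wh(H)` is injective (part of Waldhausen's theorem): a product of elementary matrices over `ℤH` is truncated with
respect to a half of the Bass-Serre tree, and the errors are matrices over `ℤA`.

2. (Vanishing.)  Let `H` be an HNN extension of `B` with the associated subgroup `A` such that `Wh(B) = 0`, the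
reduced `K_0(ℤA)` is `0` and kernels of matrices over `ℤA` are stably free.  Then `Wh(H) = 0`.  A matrix over `ℤH` is
linearized to `M_0 + t M_1`; its inverse defines an idempotent matrix over `ℤA` by restriction to half-trees; after the
splitting of the idempotent the matrix is `1 + ν`, `ν` nilpotent, and nilpotent matrices are removed with the kernels.
For free groups `A` of finite rank the kernels of matrices are stably free, by windows in the Cayley tree.  So
`Wh(F) = 0` for free groups `F`, `Wh(HNN(F; L, L, id)) = 0` and by part 1 `Wh(F *_L F) = 0` for finitely generated
subgroups `L` of `F`; with direct limits for all `L`.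

3. (Higman's embedding theorem), by modular machines.

4. (The universal group.)  The free product of the largest torsion-free quotients of all finitely presented groups embeds
in a group `V` with two generators, recursively presented and torsion-free.  By part 3 and the rope trick it embeds in a
finitely presented torsion-free group; the associated subgroups of the HNN extensions are free groups and a double
`F *_N F` of a free group (`N` is the kernel of `F → V`, it is not finitely generated).  By parts 1 and 2 all these
embeddings are injective on the Whitehead groups.

5. (Continuity.)  Finitely many elements of `Wh(G)` and the (finitely generated) group of the relations between them come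
from the largest torsion-free quotient of a finitely presented group.  A finitely presented group has infinitely many
finite presentations, and so the free product of part 4 contains infinitely many copies as free factors.

6. By the theorem of Bass, Heller and Swan the reduced `K_0` and the groups `K_n`, `n ≤ -1`, are contained in
Whitehead groups of the torsion-free groups `G × ℤ^m`.

The parts 2, 3, 4 and 5 are joint work with the helpers 5, 14, 18, 21, 55, 66 and 80.
-/

namespace Pool.Agent.Results.MP_16fe43_al.UniversalWhitehead

open Group
open Pool.Agent.E8helper16.UK (TF WhZero KZero KNeg ZG)
open Pool.Agent.Helper20.TG (TwoGen WhInj)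
open Pool.Agent.Helper20.WE (WhN)

universe u

/-- the assertion of Q1 for the group `G` -/
def Vanish (G : Type u) [Group G] : Prop :=
  WhZero G ∧ KZero G ∧ ∀ n : ℕ, 1 ≤ n → Subsingleton ((KNeg.{u} n).obj (ZG G))

/-- `Wh_n(G)`: the group of the invertible `n × n` matrices over `ℤG` modulo the subgroup `WhKer G n` of the matrices which
are trivial in `Wh(G)`, that is, the image of `GL_n(ℤG)` in `Wh(G)` -/
def Wh (G : Type) [Group G] (n : ℕ) : Type := WhN G n

noncomputable instance (G : Type) [Group G] (n : ℕ) : CommGroup (Wh G n) := inferInstanceAs (CommGroup (WhN G n))

/-- the direct sum of countably many copies of the abelian group `A` embeds in the abelian group `W` -/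
def SumEmb (A W : Type) [CommGroup A] [CommGroup W] : Prop :=
  ∃ φ : (ℕ →₀ Additive A) →+ Additive W, Function.Injective φ

/-- **The universal finitely presented torsion-free group for the Whitehead groups.** -/
theorem result :
    ∃ (P : Type) (_ : Group P), IsFinitelyPresented P ∧ TwoGen P ∧ TF P ∧
      (∀ (X : Type) [Group X], IsFinitelyPresented X → TF X →
        ∃ f : X →* P, Function.Injective f ∧ WhInj f) ∧
      (∀ (G : Type) [Group G], TF G → ∀ (n : ℕ) (A : Subgroup (Wh G n)), A.FG → SumEmb A (Wh P n)) ∧
      (∀ n : ℕ, Subsingleton (Wh P n) ∨ ¬ Group.FG (Wh P n)) ∧
      (WhZero P ↔ ∀ (G : Type) [Group G], TF G → Vanish G) ∧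
      (WhZero P → ∀ (G : Type u) [Group G], TF G → Vanish G) :=
  Pool.Agent.Helper20.WE.Fk.main_wh Pool.Agent.Helper20.FQ.higman_embedding Pool.Agent.Helper20.WE.Grp.s_grp

end Pool.Agent.Results.MP_16fe43_al.UniversalWhitehead
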